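import Pool.Agent.Y812.FA.Prep

/-!
# Project FA: local Stokes at the boundary
-/

set_option autoImplicit false

open Set Filter Topology Metric Function MeasureTheory
open scoped Real NNReal

noncomputable section

namespace Pool.Agent.Y812.FA

open Pool.Agent.Y522.FA

section geo

variable {M : Type} [MetricSpace M] [MeasurableSpace M] {μ : Measure M} {b : Circ → M}

/-- the boundary curve in a chart, as a Lipschitz curve with values in the universal cover of the
circle -/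
theorem curve (S : Surf M μ b) (hd : ∀ s t, dist s t ≤ dist (b s) (b t)) (θ0 : ℝ) (i : Fin S.N)
    (hi : b (θ0 : Circ) ∈ S.U i) :
    ∃ (T1 : ℝ → ℝ) (C : ℝ≥0) (a c t0 : ℝ), t0 ∈ Ioo a c ∧ LipschitzOnWith C T1 (Icc a c) ∧
      InjOn T1 (Icc a c) ∧ T1 t0 = θ0 ∧ (∀ t ∈ Icc a c, |T1 t - θ0| ≤ 1 / 2) ∧
      (∀ t ∈ Icc a c, bp t ∈ S.T i) ∧ ∀ t ∈ Icc a c, b (T1 t : Circ) = S.ψ i (bp t) := by
  have binj : ∀ s t, b s = b t → s = t := fun s t h => by
    have h1 := hd s t
    rw [h, dist_self] at h1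
    exact dist_le_zero.1 h1
  obtain ⟨O, hO, hTO⟩ := S.openT i
  have hTO' : S.T i = O ∩ {z | 0 ≤ z 0} := hTO
  have h0 : (S.φ i (b θ0)) 0 = 0 := (S.bd i _ hi).2 ⟨θ0, rfl⟩
  obtain ⟨t0, hz0⟩ : ∃ t0, S.φ i (b θ0) = bp t0 := ⟨_, eq_bp h0⟩
  have hright : ∀ z ∈ S.T i, S.φ i (S.ψ i z) = z := by
    rintro _ ⟨x, hx, rfl⟩
    rw [S.left i x hx]
  have hmem : ∀ z ∈ S.T i, S.ψ i z ∈ S.U i := by
    rintro _ ⟨x, hx, rfl⟩
    rw [S.left i x hx]
    exact hx
  have hz0T : bp t0 ∈ S.T i := by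
    rw [← hz0]
    exact ⟨_, hi, rfl⟩
  obtain ⟨δ1, hδ1, hdst⟩ := S.dst i (bp t0) hz0T 1 one_pos
  have hOm : bp t0 ∈ O := by
    rw [hTO'] at hz0T
    exact hz0T.1
  obtain ⟨δ2, hδ2, hball⟩ := Metric.isOpen_iff.1 hO _ hOm
  set CC : ℝ≥0 := ‖S.A i (bp t0)‖₊ + 1 with hCC
  have hCC1 : (1 : ℝ) ≤ CC := by
    rw [hCC]
    push_cast
    have := norm_nonneg (S.A i (bp t0))
    linarith
  have hCC0 : (0 : ℝ) < CC := by linarith
  set δ : ℝ := min (min δ1 δ2) (1 / CC) with hδ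
  have hδ0 : 0 < δ := by positivity
  have hδ1' : δ ≤ δ1 := (min_le_left _ _).trans (min_le_left _ _)
  have hδ2' : δ ≤ δ2 := (min_le_left _ _).trans (min_le_right _ _)
  have hδ3' : CC * δ ≤ 1 := by
    have : δ ≤ 1 / CC := min_le_right _ _
    calc (CC : ℝ) * δ ≤ CC * (1 / CC) := by gcongr
      _ = 1 := by field_simp
  have hT : ∀ t, |t - t0| < δ → bp t ∈ S.T i := by
    intro t ht
    rw [hTO']
    refine ⟨hball ?_, ?_⟩
    · rw [mem_ball, dist_eq_norm, norm_bp]
      linarith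
    · show 0 ≤ (bp t) 0
      rw [bp_zero]
  have hex : ∀ t, ∃ s : Circ, |t - t0| < δ → b s = S.ψ i (bp t) := by
    intro t
    by_cases ht : |t - t0| < δ
    · have h1 := hT t ht
      have h2 := (S.bd i (S.ψ i (bp t)) (hmem _ h1)).1 (by rw [hright _ h1, bp_zero])
      obtain ⟨s, hs⟩ := h2
      exact ⟨s, fun _ => hs⟩
    · exact ⟨0, fun h => absurd h ht⟩
  choose th hth using hex
  have hthd : ∀ t s, |t - t0| < δ → |s - t0| < δ → dist (th t) (th s) ≤ CC * |t - s| := by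
    intro t s ht hs
    refine (hd _ _).trans ?_
    rw [hth t ht, hth s hs]
    have h1 := hdst (bp t) (hT t ht) (bp s) (hT s hs) (by rw [norm_bp]; linarith)
      (by rw [norm_bp]; linarith)
    refine h1.trans ?_
    have h2 := (S.A i (bp t0)).le_opNorm (bp s - bp t)
    rw [norm_bp] at h2 ⊢
    rw [abs_sub_comm s t] at h2 ⊢
    rw [hCC]
    push_cast
    linarith
  have hth0 : th t0 = (θ0 : Circ) := by
    refine binj _ _ ?_
    rw [hth t0 (by simpa using hδ0), ← hz0, S.left i _ hi]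
  have hl : ∀ t, ∃ y : ℝ, (y : Circ) = th t ∧ |y - θ0| = dist (th t) (θ0 : Circ) :=
    fun t => lift (th t) θ0
  choose T1 hT1 hT1' using hl
  have hIcc : ∀ t ∈ Icc (t0 - δ / 2) (t0 + δ / 2), |t - t0| ≤ δ / 2 := by
    intro t ht
    rw [abs_le]
    constructor <;> linarith [ht.1, ht.2]
  have hIcc' : ∀ t ∈ Icc (t0 - δ / 2) (t0 + δ / 2), |t - t0| < δ := by
    intro t ht
    linarith [hIcc t ht]
  have hb2 : ∀ t ∈ Icc (t0 - δ / 2) (t0 + δ / 2), |T1 t - θ0| ≤ 1 / 2 := by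
    intro t ht
    rw [hT1', ← hth0]
    refine (hthd t t0 (hIcc' t ht) (by simpa using hδ0)).trans ?_
    have := hIcc t ht
    calc (CC : ℝ) * |t - t0| ≤ CC * (δ / 2) := by gcongr
      _ ≤ 1 / 2 := by linarith
  refine ⟨T1, CC, t0 - δ / 2, t0 + δ / 2, t0, ⟨by linarith, by linarith⟩, ?_, ?_, ?_, hb2, ?_, ?_⟩
  · refine LipschitzOnWith.of_dist_le_mul fun t ht s hs => ?_
    have h1 : |T1 t - T1 s| ≤ π := by
      have h2 := hb2 t ht
      have h3 := hb2 s hs
      have h4 : |T1 t - T1 s| ≤ |T1 t - θ0| + |θ0 - T1 s| := abs_sub_le _ _ _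
      rw [abs_sub_comm θ0] at h4
      have := Real.pi_gt_three
      linarith
    rw [Real.dist_eq, Real.dist_eq, ← dist_coe h1, hT1, hT1]
    exact hthd t s (hIcc' t ht) (hIcc' s hs)
  · intro t ht s hs h
    have h1 : th t = th s := by rw [← hT1 t, ← hT1 s, h]
    have h2 : S.ψ i (bp t) = S.ψ i (bp s) := by
      rw [← hth t (hIcc' t ht), ← hth s (hIcc' s hs), h1]
    have h3 : bp t = bp s := by
      rw [← hright _ (hT t (hIcc' t ht)), ← hright _ (hT s (hIcc' s hs)), h2]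
    rw [← bp_one t, ← bp_one s, h3]
  · have h1 := hT1' t0
    rw [hth0, dist_self, abs_eq_zero, sub_eq_zero] at h1
    exact h1
  · intro t ht
    exact hT t (hIcc' t ht)
  · intro t ht
    rw [hT1, hth t (hIcc' t ht)]

/-- the two orientations -/
theorem orient {T1 : ℝ → ℝ} {C : ℝ≥0} {a c t0 θ0 : ℝ} (ht0 : t0 ∈ Ioo a c)
    (hL : LipschitzOnWith C T1 (Icc a c)) (hI : InjOn T1 (Icc a c)) (h0 : T1 t0 = θ0)
    (hb : ∀ t ∈ Icc a c, |T1 t - θ0| ≤ 1 / 2) :
    ∃ (η ε : ℝ), 0 < η ∧ |ε| = 1 ∧ (∀ y, |y - θ0| < η → ∃ t ∈ Ioo a c, T1 t = y) ∧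
      ∀ h : ℝ → ℝ, (∀ x y, IntervalIntegrable h volume x y) →
        (∀ y, η / 2 ≤ |y - θ0| → |y - θ0| ≤ π → h y = 0) →
        ∫ y in (T1 a)..(T1 c), h y = - ε * ∫ y in (θ0 - π)..(θ0 + π), h y := by
  have hac : a ≤ c := (ht0.1.trans ht0.2).le
  have ha : a ∈ Icc a c := ⟨le_rfl, hac⟩
  have hc : c ∈ Icc a c := ⟨hac, le_rfl⟩
  have ht : t0 ∈ Icc a c := Ioo_subset_Icc_self ht0
  have hπ := Real.pi_gt_three
  have hba := abs_le.1 (hb a ha)
  have hbc := abs_le.1 (hb c hc)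
  rcases hL.continuousOn.strictMonoOn_of_injOn_Icc' hac hI with hm | hm
  · have h1 := hm ha ht ht0.1
    have h2 := hm ht hc ht0.2
    rw [h0] at h1 h2
    refine ⟨min (θ0 - T1 a) (T1 c - θ0), -1, ?_, by simp, ?_, ?_⟩
    · exact lt_min (by linarith) (by linarith)
    · intro y hy
      have hy1 := (abs_lt.1 (hy.trans_le (min_le_left _ _)))
      have hy2 := (abs_lt.1 (hy.trans_le (min_le_right _ _)))
      have h3 : y ∈ Ioo (T1 a) (T1 c) := ⟨by linarith, by linarith⟩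
      exact intermediate_value_Ioo hac hL.continuousOn h3
    · intro h hi hz
      have hη : 0 < min (θ0 - T1 a) (T1 c - θ0) := lt_min (by linarith) (by linarith)
      have e1 := min_le_left (θ0 - T1 a) (T1 c - θ0)
      have e2 := min_le_right (θ0 - T1 a) (T1 c - θ0)
      rw [ext_int hi (η := min (θ0 - T1 a) (T1 c - θ0) / 2) (by linarith) (by linarith)
        (by linarith) (by linarith) (by linarith) hz]
      ring
  · have h1 := hm ha ht ht0.1
    have h2 := hm ht hc ht0.2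
    rw [h0] at h1 h2
    refine ⟨min (T1 a - θ0) (θ0 - T1 c), 1, ?_, by simp, ?_, ?_⟩
    · exact lt_min (by linarith) (by linarith)
    · intro y hy
      have hy1 := (abs_lt.1 (hy.trans_le (min_le_left _ _)))
      have hy2 := (abs_lt.1 (hy.trans_le (min_le_right _ _)))
      have h3 : y ∈ Ioo (T1 c) (T1 a) := ⟨by linarith, by linarith⟩
      exact intermediate_value_Ioo' hac hL.continuousOn h3
    · intro h hi hz
      have hη : 0 < min (T1 a - θ0) (θ0 - T1 c) := lt_min (by linarith) (by linarith)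
      have e1 := min_le_left (T1 a - θ0) (θ0 - T1 c)
      have e2 := min_le_right (T1 a - θ0) (θ0 - T1 c)
      rw [intervalIntegral.integral_symm, ext_int hi (η := min (T1 a - θ0) (θ0 - T1 c) / 2)
        (by linarith) (by linarith) (by linarith) (by linarith) (by linarith) hz]
      ring

end geo

/-- a cut-off function -/
theorem cutoff {M : Type} [MetricSpace M] [CompactSpace M] {C0 U : Set M} (hC0 : IsCompact C0)
    (hne : C0.Nonempty) (hU : IsOpen U) (h : C0 ⊆ U) :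
    ∃ (κ : M → ℝ) (K : ℝ≥0) (C : Set M), LipschitzWith K κ ∧ (∀ x, |κ x| ≤ 1) ∧
      (∀ x ∈ C0, κ x = 1) ∧ IsCompact C ∧ C ⊆ U ∧ ∀ x, x ∉ C → κ x = 0 := by
  obtain ⟨r, hr, hrU⟩ := hC0.exists_cthickening_subset_open hU h
  refine ⟨fun x => max 0 (1 - infDist x C0 / r), ⟨1 / r, by positivity⟩, cthickening r C0,
    ?_, ?_, ?_, isClosed_cthickening.isCompact, hrU, ?_⟩
  · refine LipschitzWith.const_max ?_ 0
    refine LipschitzWith.of_dist_le_mul fun x y => ?_
    have h1 := (lipschitz_infDist_pt C0).dist_le_mul x y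
    rw [Real.dist_eq] at h1 ⊢
    have e : 1 - infDist x C0 / r - (1 - infDist y C0 / r) = - ((infDist x C0 - infDist y C0) / r) := by
      ring
    rw [e, abs_neg, abs_div, abs_of_pos hr]
    simp only [NNReal.coe_one, one_mul] at h1
    show _ ≤ 1 / r * dist x y
    rw [one_div_mul_eq_div]
    gcongr
  · intro x
    have h1 : 0 ≤ infDist x C0 / r := div_nonneg infDist_nonneg hr.le
    rw [abs_of_nonneg (le_max_left _ _)]
    exact max_le zero_le_one (by linarith)
  · intro x hx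
    simp only [infDist_zero_of_mem hx, zero_div, sub_zero]
    exact max_eq_right zero_le_one
  · intro x hx
    refine max_eq_left ?_
    by_contra hc
    push Not at hc
    have h1 : infDist x C0 / r < 1 := by linarith
    rw [div_lt_one hr] at h1
    obtain ⟨y, hy, hxy⟩ := (infDist_lt_iff hne).1 h1
    exact hx (mem_cthickening_of_dist_le x y r C0 hy hxy.le)

theorem stLoc (hC : StChart) (hZ : StZero) (hJ : StJac) (hR : StRad) : StLoc := by
  intro M _ _ _ _ μ b S hb hd θ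
  obtain ⟨θ0, hθ0, -⟩ := lift θ 0
  subst hθ0
  obtain ⟨i, hi⟩ := S.cover (b θ0)
  obtain ⟨T1, CC, a, c, t0, ht0, hL, hI, h0, hb2, hT, hbT⟩ := curve S hd θ0 i hi
  obtain ⟨η0, ε, hη0, hε, hiv, hint⟩ := orient ht0 hL hI h0 hb2
  have hright : ∀ z ∈ S.T i, S.φ i (S.ψ i z) = z := by
    rintro _ ⟨x, hx, rfl⟩
    rw [S.left i x hx]
  have hmem : ∀ z ∈ S.T i, S.ψ i z ∈ S.U i := by
    rintro _ ⟨x, hx, rfl⟩
    rw [S.left i x hx]
    exact hx
  have hac : a ≤ c := (ht0.1.trans ht0.2).le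
  have : Fact (0 < 2 * π) := ⟨by positivity⟩
  have hC0 : b '' closedBall (θ0 : Circ) (η0 / 2) ⊆ S.U i := by
    rintro _ ⟨s, hs, rfl⟩
    obtain ⟨y, rfl, hy⟩ := lift s θ0
    rw [mem_closedBall] at hs
    obtain ⟨t, ht, rfl⟩ := hiv y (by rw [hy]; linarith)
    rw [hbT t (Ioo_subset_Icc_self ht)]
    exact hmem _ (hT t (Ioo_subset_Icc_self ht))
  obtain ⟨κ, Kκ, CK, hκ, hκ1, hκC0, hCK, hCKU, hκ0⟩ :=
    cutoff ((isClosed_closedBall (x := (θ0 : Circ)) (ε := η0 / 2)).isCompact.image hb)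
      ⟨_, (θ0 : Circ), mem_closedBall_self (by positivity), rfl⟩ (S.openU i) hC0
  refine ⟨η0 / 2, ε, by positivity, hε, ?_⟩
  intro F g K K' C C' hF hg hFb hgb hF0
  obtain ⟨B, hB⟩ := isCompact_univ.exists_bound_of_continuousOn hF.continuous.continuousOn
  have hB0 : 0 ≤ B := (norm_nonneg _).trans (hB (b θ0) (mem_univ _))
  lift B to ℝ≥0 using hB0
  have hBF : ∀ x, |F x| ≤ B := fun x => hB x (mem_univ x)
  have hkF : LipschitzWith (1 * K + B * Kκ) (fun x => κ x * F x) :=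
    lipMul hκ hF (by simpa using hκ1) hBF
  have hrest := hF.sub hkF
  have hκF : ∀ s : Circ, κ (b s) * F (b s) = F (b s) := by
    intro s
    by_cases hs : dist s θ0 ≤ η0 / 2
    · rw [hκC0 (b s) ⟨s, hs, rfl⟩, one_mul]
    · rw [hF0 s (not_le.1 hs).le, mul_zero]
  have e1 : ∫ x, S.jac F g x ∂μ = ∫ x, S.jac (fun x => κ x * F x) g x ∂μ +
      ∫ x, S.jac (fun x => F x - κ x * F x) g x ∂μ := by
    have hrest' : LipschitzWith (K + (1 * K + B * Kκ)) (fun x => F x - κ x * F x) := hrest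
    rw [← jacAdd hJ hR S hkF hrest' hg]
    simp only [add_sub_cancel]
  have e2 : ∫ x, S.jac (fun x => F x - κ x * F x) g x ∂μ = 0 := by
    refine hZ M μ b S _ g _ K' hrest hg fun s => ?_
    show F (b s) - κ (b s) * F (b s) = 0
    rw [hκF, sub_self]
  have e3 := hC M μ b S i (fun x => κ x * F x) g _ K' hkF hg CK hCK hCKU
    (fun x hx => by simp only [hκ0 x hx, zero_mul])
  have e4 : ∫ t : ℝ, (S.T i).indicator (fun z => κ (S.ψ i z) * F (S.ψ i z)) (bp t) *
      deriv (fun t => g (S.ψ i (bp t))) t =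
      ∫ t in a..c, F (b (T1 t : Circ)) * deriv (fun t => g (b (T1 t : Circ))) t := by
    rw [intervalIntegral.integral_of_le hac, integral_Ioc_eq_integral_Ioo]
    rw [← setIntegral_eq_integral_of_forall_compl_eq_zero (s := Ioo a c)]
    · refine setIntegral_congr_fun measurableSet_Ioo fun t ht => ?_
      have ht' := Ioo_subset_Icc_self ht
      have e5 : deriv (fun t => g (S.ψ i (bp t))) t =
          deriv (fun t => g (b (T1 t : Circ))) t := by
        refine Filter.EventuallyEq.deriv_eq ?_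
        filter_upwards [Ioo_mem_nhds ht.1 ht.2] with s hs
        rw [hbT s (Ioo_subset_Icc_self hs)]
      rw [e5, indicator_of_mem (hT t ht'), ← hbT t ht', hκF]
    · intro t ht
      by_contra hne
      have h1 : (S.T i).indicator (fun z => κ (S.ψ i z) * F (S.ψ i z)) (bp t) ≠ 0 :=
        left_ne_zero_of_mul hne
      have h2 : bp t ∈ S.T i := by
        by_contra h3
        exact h1 (indicator_of_notMem h3 _)
      rw [indicator_of_mem h2] at h1
      have h4 : F (S.ψ i (bp t)) ≠ 0 := right_ne_zero_of_mul h1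
      obtain ⟨s, hs⟩ := (S.bd i (S.ψ i (bp t)) (hmem _ h2)).1 (by rw [hright _ h2, bp_zero])
      obtain ⟨y, rfl, hy⟩ := lift s θ0
      rw [← hs] at h4
      have h5 : dist (y : Circ) θ0 < η0 / 2 := by
        by_contra h6
        exact h4 (hF0 _ (not_lt.1 h6))
      obtain ⟨t', ht', rfl⟩ := hiv y (by rw [hy]; linarith)
      have ht'' := Ioo_subset_Icc_self ht'
      rw [hbT t' ht''] at hs
      have h7 : bp t' = bp t := by
        rw [← hright _ (hT t' ht''), ← hright _ h2, hs]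
      have h8 : t' = t := by rw [← bp_one t', ← bp_one t, h7]
      exact ht (h8 ▸ ht')
  have hα := lipCirc hFb
  have hβ := lipCirc hgb
  have e5 := cov (T := T1) hα hβ (fun y => hBF _) hac hL
  have e6 := hint (fun y => F (b (y : Circ)) * deriv (fun t : ℝ => g (b (t : Circ))) y)
    (ii hα hβ) (fun y h1 h2 => by
      have h3 := hF0 (y : Circ) (by rw [dist_coe h2]; exact h1)
      simp only [h3, zero_mul])
  have hper : Function.Periodic
      (fun y : ℝ => F (b (y : Circ)) * deriv (fun t : ℝ => g (b (t : Circ))) y) (2 * π) :=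
    (perCirc (fun s => F (b s))).mul (perDeriv (perCirc (fun s => g (b s))))
  have e7 := hper.intervalIntegral_add_eq (θ0 - π) 0
  have e8 : θ0 - π + 2 * π = θ0 + π := by ring
  rw [e8, zero_add] at e7
  have e3' : ∫ x, S.jac (fun x => κ x * F x) g x ∂μ = - ∫ t : ℝ,
      (S.T i).indicator (fun z => κ (S.ψ i z) * F (S.ψ i z)) (bp t) *
      deriv (fun t => g (S.ψ i (bp t))) t := e3
  rw [e1, e2, e3', e4, e5, e6, e7]
  unfold bint
  ring

end Pool.Agent.Y812.FA
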