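import Mathlib

/-!
# Project FA: change of variables in the integral of `α dβ` along a Lipschitz curve
-/

set_option autoImplicit false

open Set Filter Topology Metric Function MeasureTheory
open scoped Real NNReal

noncomputable section

namespace Pool.Agent.Y812.FA

/-- the form `α dβ` is integrable -/
lemma ii {α β : ℝ → ℝ} {K K' : ℝ≥0} (hα : LipschitzWith K α) (hβ : LipschitzWith K' β) (a b : ℝ) :
    IntervalIntegrable (fun t => α t * deriv β t) volume a b := by
  have h := (hβ.lipschitzOnWith (s := uIcc a b)).absolutelyContinuousOnInterval.intervalIntegrable_deriv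
  exact h.continuousOn_mul hα.continuous.continuousOn

lemma incr {α β : ℝ → ℝ} {K K' : ℝ≥0} (hα : LipschitzWith K α) (hβ : LipschitzWith K' β)
    (y y' : ℝ) :
    |(∫ u in y..y', α u * deriv β u) - α y * (β y' - β y)| ≤ K * K' * |y' - y| ^ 2 := by
  have hb : IntervalIntegrable (deriv β) volume y y' :=
    (hβ.lipschitzOnWith (s := uIcc y y')).absolutelyContinuousOnInterval.intervalIntegrable_deriv
  have h1 : β y' - β y = ∫ u in y..y', deriv β u :=
    ((hβ.lipschitzOnWith (s := uIcc y y')).absolutelyContinuousOnInterval.integral_deriv_eq_sub).symm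
  rw [h1, ← intervalIntegral.integral_const_mul, ← intervalIntegral.integral_sub (ii hα hβ y y')
    (hb.const_mul _), ← Real.norm_eq_abs]
  have h2 : ∀ u ∈ uIoc y y', ‖α u * deriv β u - α y * deriv β u‖ ≤ K * |y' - y| * K' := by
    intro u hu
    rw [← sub_mul, norm_mul]
    have h3 : ‖α u - α y‖ ≤ K * |y' - y| := by
      have h4 := hα.dist_le_mul u y
      rw [Real.dist_eq] at h4
      rw [Real.norm_eq_abs]
      refine h4.trans ?_
      refine mul_le_mul_of_nonneg_left ?_ K.2
      rw [Real.dist_eq]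
      have h5 : u ∈ uIcc y y' := uIoc_subset_uIcc hu
      exact abs_sub_left_of_mem_uIcc h5
    have h6 : ‖deriv β u‖ ≤ K' := norm_deriv_le_of_lipschitz hβ
    exact mul_le_mul h3 h6 (norm_nonneg _) (by positivity)
  have h7 := intervalIntegral.norm_integral_le_of_norm_le_const h2
  refine h7.trans (le_of_eq ?_)
  ring

/-- the primitive is Lipschitz -/
lemma lipG {α β : ℝ → ℝ} {K K' : ℝ≥0} (hα : LipschitzWith K α) (hβ : LipschitzWith K' β)
    (B : ℝ≥0) (hB : ∀ y, |α y| ≤ B) :
    LipschitzWith (B * K') (fun y => ∫ u in (0 : ℝ)..y, α u * deriv β u) := by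
  refine LipschitzWith.of_dist_le_mul fun y y' => ?_
  rw [Real.dist_eq, intervalIntegral.integral_interval_sub_left (ii hα hβ _ _) (ii hα hβ _ _),
    ← Real.norm_eq_abs]
  have h2 : ∀ u ∈ uIoc y' y, ‖α u * deriv β u‖ ≤ B * K' := by
    intro u hu
    rw [norm_mul]
    have h6 : ‖deriv β u‖ ≤ K' := norm_deriv_le_of_lipschitz hβ
    exact mul_le_mul (hB u) h6 (norm_nonneg _) B.2
  have h7 := intervalIntegral.norm_integral_le_of_norm_le_const h2
  rw [Real.dist_eq]
  push_cast
  exact h7

theorem hda {α β T : ℝ → ℝ} {K K' C : ℝ≥0} (hα : LipschitzWith K α) (hβ : LipschitzWith K' β)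
    {a c t : ℝ} (hT : LipschitzOnWith C T (Icc a c)) (ht : t ∈ Ioo a c)
    (hd : DifferentiableAt ℝ (fun t => β (T t)) t) :
    HasDerivAt (fun t => ∫ u in (0 : ℝ)..(T t), α u * deriv β u)
      (α (T t) * deriv (fun t => β (T t)) t) t := by
  have h1 := hd.hasDerivAt
  rw [hasDerivAt_iff_isLittleO] at h1 ⊢
  have h2 : (fun x' => (∫ u in (T t)..(T x'), α u * deriv β u) - α (T t) * (β (T x') - β (T t)))
      =o[𝓝 t] fun x' => x' - t := by
    have h3 : (fun x' => (∫ u in (T t)..(T x'), α u * deriv β u) - α (T t) * (β (T x') - β (T t)))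
      =O[𝓝 t] fun x' => (x' - t) ^ 2 := by
      refine Asymptotics.IsBigO.of_bound (K * K' * C ^ 2) ?_
      filter_upwards [Ioo_mem_nhds ht.1 ht.2] with x' hx'
      have h4 := incr hα hβ (T t) (T x')
      rw [Real.norm_eq_abs]
      refine h4.trans ?_
      have h5 := hT.dist_le_mul x' (Ioo_subset_Icc_self hx') t (Ioo_subset_Icc_self ht)
      rw [Real.dist_eq, Real.dist_eq] at h5
      have h6 : |T x' - T t| ^ 2 ≤ (C * |x' - t|) ^ 2 := by
        exact pow_le_pow_left₀ (abs_nonneg _) h5 2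
      rw [norm_pow, Real.norm_eq_abs]
      calc (K : ℝ) * K' * |T x' - T t| ^ 2 ≤ K * K' * (C * |x' - t|) ^ 2 := by gcongr
        _ = _ := by ring
    refine h3.trans_isLittleO ?_
    have h7 : (fun x' : ℝ => (x' - t) ^ 2) = fun x' => (x' - t) * (x' - t) := by
      ext x'; ring
    rw [h7]
    have h8 : (fun x' : ℝ => x' - t) =o[𝓝 t] (fun _ => (1 : ℝ)) := by
      rw [Asymptotics.isLittleO_one_iff]
      have : Tendsto (fun x' : ℝ => x' - t) (𝓝 t) (𝓝 (t - t)) := by
        exact tendsto_id.sub tendsto_const_nhds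
      simpa using this
    have h9 := h8.mul_isBigO (Asymptotics.isBigO_refl (fun x' : ℝ => x' - t) (𝓝 t))
    simpa using h9
  have h10 := (h1.const_mul_left (α (T t)))
  have h11 := h2.add h10
  refine h11.congr_left fun x' => ?_
  rw [intervalIntegral.integral_interval_sub_left (ii hα hβ _ _) (ii hα hβ _ _)]
  simp only [smul_eq_mul]
  ring

/-- change of variables -/
theorem cov {α β T : ℝ → ℝ} {K K' C B : ℝ≥0} (hα : LipschitzWith K α) (hβ : LipschitzWith K' β)
    (hB : ∀ y, |α y| ≤ B) {a c : ℝ} (hac : a ≤ c) (hT : LipschitzOnWith C T (Icc a c)) :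
    ∫ t in a..c, α (T t) * deriv (fun t => β (T t)) t = ∫ y in (T a)..(T c), α y * deriv β y := by
  have hG := lipG hα hβ B hB
  have hGT : LipschitzOnWith (B * K' * C) (fun t => ∫ u in (0 : ℝ)..(T t), α u * deriv β u)
      (uIcc a c) := by
    rw [uIcc_of_le hac]
    exact hG.comp_lipschitzOnWith hT
  have hbT : LipschitzOnWith (K' * C) (fun t => β (T t)) (uIcc a c) := by
    rw [uIcc_of_le hac]
    exact hβ.comp_lipschitzOnWith hT
  have h1 := hGT.absolutelyContinuousOnInterval.integral_deriv_eq_sub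
  rw [intervalIntegral.integral_interval_sub_left (ii hα hβ _ _) (ii hα hβ _ _)] at h1
  rw [← h1]
  refine intervalIntegral.integral_congr_ae ?_
  have h2 := hbT.absolutelyContinuousOnInterval.ae_differentiableAt
  have h3 : ∀ᵐ t : ℝ, t ≠ c := by
    simp [ae_iff, measure_singleton]
  filter_upwards [h2, h3] with t ht htc htm
  rw [uIoc_of_le hac] at htm
  have ht2 : t ∈ Ioo a c := ⟨htm.1, lt_of_le_of_ne htm.2 htc⟩
  have h4 := ht (by rw [uIcc_of_le hac]; exact Ioc_subset_Icc_self htm)
  exact (hda hα hβ hT ht2 h4).deriv.symm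

end Pool.Agent.Y812.FA
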