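import Pool.Agent.Y522.FA.Stm
import Pool.Agent.Y812.FA.Cov

/-!
# Project FA: auxiliary results (circle, additivity)
-/

set_option autoImplicit false

open Set Filter Topology Metric Function MeasureTheory
open scoped Real NNReal

noncomputable section

namespace Pool.Agent.Y812.FA

open Pool.Agent.Y522.FA

lemma bp_zero (t : ℝ) : (bp t) 0 = 0 := by simp [bp, bv]

lemma bp_one (t : ℝ) : (bp t) 1 = t := by simp [bp, bv]

lemma norm_bp (t s : ℝ) : ‖bp t - bp s‖ = |t - s| := by
  unfold bp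
  rw [← sub_smul, norm_smul]
  simp [bv]

lemma eq_bp {z : E2} (h : z 0 = 0) : z = bp (z 1) := by
  ext j
  fin_cases j
  · show z 0 = (bp (z 1)) 0
    rw [bp_zero, h]
  · show z 1 = (bp (z 1)) 1
    rw [bp_one]

lemma dist_coe {x y : ℝ} (h : |x - y| ≤ π) : dist (x : Circ) (y : Circ) = |x - y| := by
  rw [dist_eq_norm, ← AddCircle.coe_sub, AddCircle.norm_coe_eq_abs_iff _ (by positivity)]
  rw [abs_of_pos (by positivity : (0 : ℝ) < 2 * π)]
  linarith

lemma dist_coe_le (x y : ℝ) : dist (x : Circ) (y : Circ) ≤ |x - y| := by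
  rw [dist_eq_norm, ← AddCircle.coe_sub, ← Real.norm_eq_abs]
  exact QuotientAddGroup.norm_mk_le_norm

lemma lift (s : Circ) (y0 : ℝ) : ∃ y : ℝ, (y : Circ) = s ∧ |y - y0| = dist s (y0 : Circ) := by
  induction s using QuotientAddGroup.induction_on with
  | H x =>
    refine ⟨x - (round ((2 * π)⁻¹ * (x - y0)) : ℤ) * (2 * π), ?_, ?_⟩
    · show ((x - (round ((2 * π)⁻¹ * (x - y0)) : ℤ) * (2 * π) : ℝ) : Circ) = (x : Circ)
      rw [AddCircle.coe_sub, ← zsmul_eq_mul, AddCircle.coe_zsmul, AddCircle.coe_period]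
      simp
    · show _ = dist (x : Circ) (y0 : Circ)
      rw [dist_eq_norm, ← AddCircle.coe_sub, AddCircle.norm_eq]
      congr 1
      ring

lemma lipCirc {f : Circ → ℝ} {C : ℝ≥0} (hf : LipschitzWith C f) :
    LipschitzWith C (fun y : ℝ => f (y : Circ)) := by
  refine LipschitzWith.of_dist_le_mul fun x y => ?_
  refine (hf.dist_le_mul _ _).trans ?_
  refine mul_le_mul_of_nonneg_left ?_ C.2
  rw [Real.dist_eq]
  exact dist_coe_le x y

lemma perCirc (f : Circ → ℝ) : Function.Periodic (fun y : ℝ => f (y : Circ)) (2 * π) := by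
  intro y
  simp only [AddCircle.coe_add, AddCircle.coe_period, add_zero]

lemma perDeriv {f : ℝ → ℝ} {p : ℝ} (hf : Function.Periodic f p) :
    Function.Periodic (deriv f) p := by
  intro y
  have h : (fun x => f (x + p)) = f := funext hf
  have h2 := deriv_comp_add_const f p y
  rw [h] at h2
  exact h2.symm

lemma ext_int {h : ℝ → ℝ} (hi' : ∀ x y, IntervalIntegrable h volume x y) {θ0 η lo hi : ℝ}
    (h1 : lo ≤ θ0 - η) (h2 : θ0 + η ≤ hi) (h3 : θ0 - π ≤ lo) (h4 : hi ≤ θ0 + π) (hη : 0 < η)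
    (hz : ∀ y, η ≤ |y - θ0| → |y - θ0| ≤ π → h y = 0) :
    ∫ y in lo..hi, h y = ∫ y in (θ0 - π)..(θ0 + π), h y := by
  have e1 : ∫ y in (θ0 - π)..lo, h y = 0 := by
    have : ∫ y in (θ0 - π)..lo, h y = ∫ y in (θ0 - π)..lo, (0 : ℝ) := by
      refine intervalIntegral.integral_congr fun y hy => ?_
      rw [uIcc_of_le h3] at hy
      refine hz y ?_ ?_
      · rw [abs_of_nonpos (by linarith [hy.2])]
        linarith [hy.2]
      · rw [abs_of_nonpos (by linarith [hy.2])]
        linarith [hy.1]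
    rw [this]
    simp
  have e2 : ∫ y in hi..(θ0 + π), h y = 0 := by
    have : ∫ y in hi..(θ0 + π), h y = ∫ y in hi..(θ0 + π), (0 : ℝ) := by
      refine intervalIntegral.integral_congr fun y hy => ?_
      rw [uIcc_of_le h4] at hy
      refine hz y ?_ ?_
      · rw [abs_of_nonneg (by linarith [hy.1])]
        linarith [hy.1]
      · rw [abs_of_nonneg (by linarith [hy.1])]
        linarith [hy.2]
    rw [this]
    simp
  rw [← intervalIntegral.integral_add_adjacent_intervals (hi' (θ0 - π) lo) (hi' lo (θ0 + π)),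
    ← intervalIntegral.integral_add_adjacent_intervals (hi' lo hi) (hi' hi (θ0 + π)), e1, e2]
  ring

lemma lipMul {M : Type} [PseudoMetricSpace M] {f g : M → ℝ} {K K' B B' : ℝ≥0}
    (hf : LipschitzWith K f)
    (hg : LipschitzWith K' g) (hB : ∀ x, |f x| ≤ B) (hB' : ∀ x, |g x| ≤ B') :
    LipschitzWith (B * K' + B' * K) (fun x => f x * g x) := by
  refine LipschitzWith.of_dist_le_mul fun x y => ?_
  rw [Real.dist_eq]
  have h1 := hf.dist_le_mul x y
  have h2 := hg.dist_le_mul x y
  rw [Real.dist_eq] at h1 h2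
  have e : f x * g x - f y * g y = f x * (g x - g y) + g y * (f x - f y) := by ring
  rw [e]
  calc |f x * (g x - g y) + g y * (f x - f y)|
      ≤ |f x| * |g x - g y| + |g y| * |f x - f y| := by
        refine (abs_add_le _ _).trans ?_
        rw [abs_mul, abs_mul]
    _ ≤ B * (K' * dist x y) + B' * (K * dist x y) := by
        have := hB x
        have := hB' y
        gcongr
    _ = _ := by push_cast; ring

section jac

variable {M : Type} [MetricSpace M] [MeasurableSpace M] [BorelSpace M] [CompactSpace M]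
  {μ : Measure M} {b : Circ → M}

omit [BorelSpace M] [CompactSpace M] in
lemma dif_add {S : Surf M μ b} {F F' : M → ℝ} {x : M} (h : S.Dif F x) (h' : S.Dif F' x) :
    S.Dif (fun x => F x + F' x) x := by
  intro i hi
  exact ⟨(h i hi).1, (h i hi).2.add (h' i hi).2⟩

omit [BorelSpace M] [CompactSpace M] in
lemma dc_add {S : Surf M μ b} {F F' : M → ℝ} {x : M} (h : S.Dif F x) (h' : S.Dif F' x)
    {i : Fin S.N} (hi : x ∈ S.U i) :
    S.dc i (fun x => F x + F' x) x = S.dc i F x + S.dc i F' x := by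
  unfold Surf.dc
  exact fderiv_fun_add (h i hi).2 (h' i hi).2

theorem jacAdd (hJ : StJac) (hR : StRad) (S : Surf M μ b) {F F' g : M → ℝ} {K K' K'' : ℝ≥0}
    (hF : LipschitzWith K F) (hF' : LipschitzWith K' F') (hg : LipschitzWith K'' g) :
    ∫ x, S.jac (fun x => F x + F' x) g x ∂μ = ∫ x, S.jac F g x ∂μ + ∫ x, S.jac F' g x ∂μ := by
  have hS : LipschitzWith (K + K') (fun x => F x + F' x) := hF.add hF'
  rw [← integral_add (hJ M μ b S F g K K'' hF hg).2 (hJ M μ b S F' g K' K'' hF' hg).2]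
  refine integral_congr_ae ?_
  filter_upwards [hR M μ b S F K hF, hR M μ b S F' K' hF', hR M μ b S g K'' hg] with x h1 h2 h3
  obtain ⟨i, hi⟩ := S.cover x
  rw [(hJ M μ b S _ g _ K'' hS hg).1 x (dif_add h1 h2) h3 i hi,
    (hJ M μ b S _ g _ K'' hF hg).1 x h1 h3 i hi,
    (hJ M μ b S _ g _ K'' hF' hg).1 x h2 h3 i hi, dc_add h1 h2 hi, ← add_div]
  congr 1
  unfold cr
  simp only [ContinuousLinearMap.add_apply]
  ring

end jac

end Pool.Agent.Y812.FA
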